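import Pool.Agent.BED.Stmts
import Pool.Agent.Helper46_BEG.WEG
import Pool.Agent.Helper71_BEG.MGP
import Pool.Agent.Helper79_BEG.TGT

/-!
# Squad BED (MP_be01ff_an), row SGW: the weak equation and linear isometries
-/

set_option autoImplicit false

namespace Pool.Agent.BED.H84

open Set Filter Topology MeasureTheory
open scoped InnerProductSpace ENNReal
open Pool.Agent.BE01

noncomputable section

/-- A linear isometry is an isometry with translation part zero. -/
theorem mv_zero {d : ℕ} (g : En d ≃ₗᵢ[ℝ] En d) (x : En d) :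
    Pool.Agent.BEG.mv (g, 0) x = g x := by
  simp [Pool.Agent.BEG.mv]

theorem mv_image {d : ℕ} (Ω : Set (En d)) (g : En d ≃ₗᵢ[ℝ] En d) (hg : ∀ x, g x ∈ Ω ↔ x ∈ Ω) :
    Pool.Agent.BEG.mv (g, 0) '' Ω = Ω := by
  ext y
  constructor
  · rintro ⟨x, hx, rfl⟩
    rw [mv_zero]
    exact (hg x).2 hx
  · intro hy
    refine ⟨g.symm y, ?_, ?_⟩
    · apply (hg _).1
      rw [g.apply_symm_apply]
      exact hy
    · rw [mv_zero, g.apply_symm_apply]

theorem sgw : SgwStmt := by
  intro d Ω g h h' G G' hΩ hg hh hG hW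
  exact Pool.Agent.BEG.H46.weg Pool.Agent.BEG.H71.mgp Pool.Agent.BEG.H79.tgt d Ω (g, 0) h h' G G'
    hΩ.1 (mv_image Ω g hg) hW
    (hh.trans (Eventually.of_forall fun x => congrArg h (mv_zero g x).symm))
    (hG.trans (Eventually.of_forall fun x => congrArg (fun y => g.symm (G y)) (mv_zero g x).symm))

end

end Pool.Agent.BED.H84
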